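import Mathlib

/-!
# MP_709e7c_lc: order dimension and the four cardinal invariants of the meager ideal

In ZFC: if the meager ideal `(M, ⊆)` is Tukey below a directed order `P` that embeds in a product of `n`
linear orders (order dimension at most `n`), then `add(M)`, `cov(M)`, `non(M)`, `cof(M)` take at most `n`
values.  In particular, the chain `add(M) < cov(M) < non(M) < cof(M)` forces every base of `M`, ordered by
inclusion, and every directed order Tukey above `M`, to have order dimension at least `4`.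
-/

set_option autoImplicit false

open Cardinal Set

namespace Pool.Agent.Results.MP_709e7c_lc.BaseDimension

/-! ### the invariants -/

/-- The `σ`-ideal of the meager subsets of the real line, ordered by inclusion. -/
abbrev Meager : Type := {A : Set ℝ // IsMeagre A}

/-- `add(M)`. -/
noncomputable def addM : Cardinal.{0} :=
  sInf {c | ∃ F : Set Meager, #F = c ∧ ¬ IsMeagre (⋃ A ∈ F, A.1)}

/-- `cov(M)`. -/
noncomputable def covM : Cardinal.{0} :=
  sInf {c | ∃ F : Set Meager, #F = c ∧ (⋃ A ∈ F, A.1) = Set.univ}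

/-- `non(M)`. -/
noncomputable def nonM : Cardinal.{0} :=
  sInf {c | ∃ Y : Set ℝ, #Y = c ∧ ¬ IsMeagre Y}

/-- `cof(M)`. -/
noncomputable def cofM : Cardinal.{0} :=
  sInf {c | ∃ F : Set Meager, #F = c ∧ ∀ A : Meager, ∃ B ∈ F, A ≤ B}

/-! ### the general lemmas -/

section general

variable {P : Type} [PartialOrder P] [IsDirectedOrder P] {n : ℕ} {L : Fin n → Type}
  [∀ i, LinearOrder (L i)] (e : P → ∀ i, L i)

/-- The cofinality of the `i`-th coordinate. -/
noncomputable def kap (i : Fin n) : Cardinal.{0} :=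
  sInf {c | ∃ S : Set P, #S = c ∧ ∀ p, ∃ s ∈ S, e p i ≤ e s i}

theorem exists_cofinal (i : Fin n) :
    ∃ S : Set P, #S = kap e i ∧ ∀ p, ∃ s ∈ S, e p i ≤ e s i :=
  csInf_mem (s := {c | ∃ S : Set P, #S = c ∧ ∀ p, ∃ s ∈ S, e p i ≤ e s i})
    ⟨_, univ, rfl, fun p => ⟨p, mem_univ _, le_rfl⟩⟩

theorem exists_bound {ι : Type} (g : ι → P) (i : Fin n) (h : #ι < kap e i) :
    ∃ q : P, ∀ j, e (g j) i ≤ e q i := by
  by_contra hcon
  push Not at hcon
  have h1 : kap e i ≤ #(range g) := by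
    apply csInf_le'
    refine ⟨range g, rfl, fun p => ?_⟩
    obtain ⟨j, hj⟩ := hcon p
    exact ⟨g j, ⟨j, rfl⟩, hj.le⟩
  exact absurd (h1.trans mk_range_le) (not_le.2 h)

theorem kap_regular (i : Fin n) (h : ℵ₀ ≤ kap e i) : (kap e i).IsRegular := by
  refine ⟨h, ?_⟩
  by_contra hcon
  rw [not_le] at hcon
  obtain ⟨S, hS1, hS2⟩ := exists_cofinal e i
  obtain ⟨T, hT1, hT2⟩ := Order.exists_cof_eq (α := (kap e i).ord.ToType)
  rw [Ordinal.cof_toType] at hT2
  have hcard : #S = #((kap e i).ord.ToType) := by rw [mk_ord_toType, hS1]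
  obtain ⟨g⟩ := Cardinal.eq.1 hcard
  have h1 : ∀ t : (kap e i).ord.ToType, #(Iic t) < kap e i := by
    intro t
    have h2 : (Iic t : Set (kap e i).ord.ToType) = insert t (Iio t) := by
      rw [Iio_insert]
    rw [h2]
    refine lt_of_le_of_lt mk_insert_le ?_
    exact add_lt_of_lt h (mk_Iio_toType_ord_lt t) (one_lt_aleph0.trans_le h)
  have h2 : ∀ t : T, ∃ q : P, ∀ x : Iic (t : (kap e i).ord.ToType),
      e (g.symm x : P) i ≤ e q i := fun t =>
    exists_bound e (fun x : Iic (t : (kap e i).ord.ToType) => (g.symm x : P)) i (h1 t)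
  choose q hq using h2
  obtain ⟨q', hq'⟩ := exists_bound e q i (by rw [hT2]; exact hcon)
  have h3 : kap e i ≤ #({q'} : Set P) := by
    apply csInf_le'
    refine ⟨{q'}, rfl, fun p => ⟨q', rfl, ?_⟩⟩
    obtain ⟨s, hs, hps⟩ := hS2 p
    obtain ⟨t, ht, hst⟩ := hT1 (g ⟨s, hs⟩)
    have h4 := hq ⟨t, ht⟩ ⟨g ⟨s, hs⟩, hst⟩
    simp only [Equiv.symm_apply_apply] at h4
    exact hps.trans (h4.trans (hq' _))
  rw [mk_singleton] at h3
  exact absurd (h.trans h3) (not_le.2 one_lt_aleph0)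

theorem exists_upper [Nonempty P] {ι : Type} [Finite ι] (g : ι → P) : ∃ p, ∀ j, g j ≤ p := by
  have := Directed.finite_le (r := (· ≤ ·)) (f := (id : P → P)) directed_id g
  obtain ⟨p, hp⟩ := this
  exact ⟨p, hp⟩

theorem mk_pi_lt {β : Cardinal.{0}} (hβ : ℵ₀ ≤ β) :
    ∀ (n : ℕ) (C : Fin n → Type), (∀ i, #(C i) < β) → #(∀ i, C i) < β := by
  intro n
  induction n with
  | zero =>
    intro C _
    have : #(∀ i, C i) = 1 := by
      rw [Cardinal.eq_one_iff_unique]
      exact ⟨inferInstance, inferInstance⟩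
    rw [this]
    exact one_lt_aleph0.trans_le hβ
  | succ n ih =>
    intro C hC
    have h1 : #(∀ i, C i) = #(C 0) * #(∀ i : Fin n, C i.succ) := by
      rw [mul_def]
      exact mk_congr (Fin.consEquiv C).symm
    rw [h1]
    exact mul_lt_of_lt hβ (hC 0) (ih _ fun i => hC _)

variable {X Y : Type} [Preorder Y] [IsDirectedOrder Y] [Nonempty Y] (r : X → Y → Prop)

theorem finite_bounded (hr : ∀ x y y', r x y → y ≤ y' → r x y') (hs : ∀ x, ∃ y, r x y)
    (F : Set X) (hF : F.Finite) : ∃ y, ∀ x ∈ F, r x y := by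
  choose g hg using hs
  have : Finite F := hF
  have h := Directed.finite_le (r := (· ≤ ·)) (f := (id : Y → Y)) directed_id (fun x : F => g x)
  obtain ⟨y, hy⟩ := h
  exact ⟨y, fun x hx => hr _ _ _ (hg x) (hy ⟨x, hx⟩)⟩

/-- The cofinal sets in the coordinates with `kap i < β`, a point in the others. -/
theorem exists_small [Nonempty P] (β : Cardinal.{0}) (hβ : ℵ₀ ≤ β) :
    ∃ C : Fin n → Set P, (∀ i, (C i).Nonempty) ∧ #(∀ i, C i) < β ∧
      ∀ i, kap e i < β → ∀ p, ∃ s ∈ C i, e p i ≤ e s i := by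
  classical
  obtain ⟨p₀⟩ := ‹Nonempty P›
  choose S hS1 hS2 using exists_cofinal e
  refine ⟨fun i => if kap e i < β then S i else {p₀}, fun i => ?_, ?_, fun i hi p => ?_⟩
  · by_cases h : kap e i < β
    · obtain ⟨s, hs, -⟩ := hS2 i p₀
      exact ⟨s, by simpa [h] using hs⟩
    · exact ⟨p₀, by simp [h]⟩
  · refine mk_pi_lt hβ n _ fun i => ?_
    by_cases h : kap e i < β
    · simp only [h, if_true, hS1]
    · simp only [h, if_false, mk_singleton]
      exact one_lt_aleph0.trans_le hβ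
  · simpa [hi] using hS2 i p

variable (he : ∀ p q : P, (∀ i, e p i ≤ e q i) → p ≤ q) (hmon : ∀ p q : P, p ≤ q → ∀ i, e p i ≤ e q i)
  (φ : Y → P) (ψ : P → Y) (hT : ∀ y p, φ y ≤ p → y ≤ ψ p)

include he hmon hT

/-- The unbounding number is one of the `kap i`. -/
theorem bounding_mem (hr : ∀ x y y', r x y → y ≤ y' → r x y') (hs : ∀ x, ∃ y, r x y)
    (F : Set X) (hF : ∀ y, ∃ x ∈ F, ¬ r x y)
    (hmin : ∀ F' : Set X, (∀ y, ∃ x ∈ F', ¬ r x y) → #F ≤ #F') :
    ℵ₀ ≤ #F ∧ ∃ i, kap e i = #F := by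
  classical
  have hP : Nonempty P := ‹Nonempty Y›.map φ
  have hβ : ℵ₀ ≤ #F := by
    by_contra h
    rw [not_le, lt_aleph0_iff_set_finite] at h
    obtain ⟨y, hy⟩ := finite_bounded r hr hs F h
    obtain ⟨x, hx, hxy⟩ := hF y
    exact hxy (hy x hx)
  refine ⟨hβ, ?_⟩
  by_contra hcon
  push Not at hcon
  obtain ⟨C, hC1, hC2, hC3⟩ := exists_small e (#F) hβ
  -- the element for `s`, `t`
  have h1 : ∀ (s : ∀ i, C i) (t : Fin n → P), ∃ p : P, ∀ i, e (s i) i ≤ e p i ∧ e (t i) i ≤ e p i := by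
    intro s t
    obtain ⟨p, hp⟩ := exists_upper (Sum.elim (fun i => ((s i : C i) : P)) t)
    exact ⟨p, fun i => ⟨hmon _ _ (hp (Sum.inl i)) i, hmon _ _ (hp (Sum.inr i)) i⟩⟩
  choose p hp using h1
  have h2 : ∀ (s : ∀ i, C i) (t : Fin n → P), ∃ x ∈ F, ¬ r x (ψ (p s t)) := fun s t => hF _
  choose y hyF hy using h2
  -- the pigeonhole principle
  have h3 : ∀ s : ∀ i, C i, ∃ x ∈ F, ∀ t : Fin n → P, ∃ t' : Fin n → P,
      (∀ i, #F < kap e i → e (t i) i ≤ e (t' i) i) ∧ y s t' = x := by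
    intro s
    by_contra hno
    push Not at hno
    have hno' : ∀ x : F, ∃ t : Fin n → P, ∀ t' : Fin n → P,
        (∀ i, #F < kap e i → e (t i) i ≤ e (t' i) i) → y s t' ≠ x := fun x => hno x x.2
    choose t ht using hno'
    have h4 : ∀ i, ∃ q : P, #F < kap e i → ∀ x : F, e (t x i) i ≤ e q i := by
      intro i
      by_cases hi : #F < kap e i
      · obtain ⟨q, hq⟩ := exists_bound e (fun x : F => t x i) i hi
        exact ⟨q, fun _ => hq⟩
      · exact ⟨Classical.choice hP, fun h => absurd h hi⟩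
    choose q hq using h4
    exact ht ⟨y s q, hyF s q⟩ q (fun i hi => hq i hi _) rfl
  choose z hzF hz using h3
  have h5 : ∀ y', ∃ x ∈ range z, ¬ r x y' := by
    intro y'
    have h6 : ∀ i, ∃ s : C i, kap e i < #F → e (φ y') i ≤ e (s : P) i := by
      intro i
      by_cases hi : kap e i < #F
      · obtain ⟨s, hs, hs'⟩ := hC3 i hi (φ y')
        exact ⟨⟨s, hs⟩, fun _ => hs'⟩
      · exact ⟨⟨_, (hC1 i).some_mem⟩, fun h => absurd h hi⟩
    choose s hs' using h6
    obtain ⟨t', ht', hyz⟩ := hz s (fun _ => φ y')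
    refine ⟨z s, ⟨s, rfl⟩, fun hrz => ?_⟩
    have h7 : φ y' ≤ p s t' := by
      apply he
      intro i
      rcases lt_or_gt_of_ne (hcon i) with h | h
      · exact (hs' i h).trans (hp s t' i).1
      · exact (ht' i h).trans (hp s t' i).2
    apply hy s t'
    rw [hyz]
    exact hr _ _ _ hrz (hT _ _ h7)
  have h8 := hmin _ h5
  exact absurd (h8.trans mk_range_le) (not_le.2 hC2)

/-- The dominating number is one of the `kap i`. -/
theorem dominating_mem (hr : ∀ x y y', r x y → y ≤ y' → r x y') (hno : ∀ y, ∃ x, ¬ r x y)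
    (D : Set Y) (hD : ∀ x, ∃ y ∈ D, r x y)
    (hmin : ∀ D' : Set Y, (∀ x, ∃ y ∈ D', r x y) → #D ≤ #D') :
    ℵ₀ ≤ #D ∧ ∃ i, kap e i = #D := by
  classical
  have hP : Nonempty P := ‹Nonempty Y›.map φ
  have hβ : ℵ₀ ≤ #D := by
    by_contra h
    rw [not_le, lt_aleph0_iff_set_finite] at h
    have : Finite D := h
    obtain ⟨y, hy⟩ := Directed.finite_le (r := (· ≤ ·)) (f := (id : Y → Y)) directed_id
      (fun x : D => (x : Y))
    obtain ⟨x, hx⟩ := hno y
    obtain ⟨y', hy', hxy⟩ := hD x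
    exact hx (hr _ _ _ hxy (hy ⟨y', hy'⟩))
  refine ⟨hβ, ?_⟩
  by_contra hcon
  push Not at hcon
  obtain ⟨C, hC1, hC2, hC3⟩ := exists_small e (#D) hβ
  have h4 : ∀ i, ∃ q : P, #D < kap e i → ∀ y : D, e (φ y) i ≤ e q i := by
    intro i
    by_cases hi : #D < kap e i
    · obtain ⟨q, hq⟩ := exists_bound e (fun y : D => φ y) i hi
      exact ⟨q, fun _ => hq⟩
    · exact ⟨Classical.choice hP, fun h => absurd h hi⟩
  choose q hq using h4
  have h1 : ∀ s : ∀ i, C i, ∃ p : P, ∀ i, e (s i) i ≤ e p i ∧ e (q i) i ≤ e p i := by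
    intro s
    obtain ⟨p, hp⟩ := exists_upper (Sum.elim (fun i => ((s i : C i) : P)) q)
    exact ⟨p, fun i => ⟨hmon _ _ (hp (Sum.inl i)) i, hmon _ _ (hp (Sum.inr i)) i⟩⟩
  choose p hp using h1
  have h5 : ∀ x, ∃ y ∈ range (fun s => ψ (p s)), r x y := by
    intro x
    obtain ⟨y, hyD, hxy⟩ := hD x
    have h6 : ∀ i, ∃ s : C i, kap e i < #D → e (φ y) i ≤ e (s : P) i := by
      intro i
      by_cases hi : kap e i < #D
      · obtain ⟨s, hs, hs'⟩ := hC3 i hi (φ y)
        exact ⟨⟨s, hs⟩, fun _ => hs'⟩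
      · exact ⟨⟨_, (hC1 i).some_mem⟩, fun h => absurd h hi⟩
    choose s hs' using h6
    refine ⟨ψ (p s), ⟨s, rfl⟩, hr _ _ _ hxy (hT _ _ ?_)⟩
    apply he
    intro i
    rcases lt_or_gt_of_ne (hcon i) with h | h
    · exact (hs' i h).trans (hp s i).1
    · exact (hq i h ⟨y, hyD⟩).trans (hp s i).2
  have h8 := hmin _ h5
  exact absurd (h8.trans mk_range_le) (not_le.2 hC2)

end general

/-! ### the meager ideal -/

theorem union_meager {A B : Set ℝ} (hA : IsMeagre A) (hB : IsMeagre B) : IsMeagre (A ∪ B) := by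
  have : IsMeagre (⋃ b : Bool, cond b A B) := isMeagre_iUnion (by rintro (_ | _) <;> assumption)
  refine this.mono ?_
  rintro x (hx | hx)
  · exact mem_iUnion.2 ⟨true, hx⟩
  · exact mem_iUnion.2 ⟨false, hx⟩

instance : IsDirectedOrder Meager :=
  ⟨fun A B => ⟨⟨A.1 ∪ B.1, union_meager A.2 B.2⟩, subset_union_left, subset_union_right⟩⟩

theorem singleton_meager (x : ℝ) : IsMeagre ({x} : Set ℝ) := by
  have h : IsNowhereDense ({x} : Set ℝ) := by
    rw [IsNowhereDense, closure_singleton]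
    exact interior_singleton x
  exact h.isMeagre

instance : Nonempty Meager := ⟨⟨_, singleton_meager 0⟩⟩

theorem univ_not_meager : ¬ IsMeagre (univ : Set ℝ) := by
  intro h
  have h1 : (∅ : Set ℝ) ∈ residual ℝ := by
    have := h
    rwa [IsMeagre, compl_univ] at this
  have h2 := dense_of_mem_residual h1
  obtain ⟨x, hx⟩ := h2.nonempty
  exact hx

theorem add_attained : ∃ F : Set Meager, #F = addM ∧ ¬ IsMeagre (⋃ A ∈ F, A.1) := by
  refine csInf_mem (s := {c | ∃ F : Set Meager, #F = c ∧ ¬ IsMeagre (⋃ A ∈ F, A.1)})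
    ⟨_, univ, rfl, fun h => univ_not_meager (h.mono fun x _ => ?_)⟩
  exact mem_iUnion₂.2 ⟨⟨{x}, singleton_meager x⟩, mem_univ _, mem_singleton x⟩

theorem cov_attained : ∃ F : Set Meager, #F = covM ∧ (⋃ A ∈ F, A.1) = Set.univ := by
  refine csInf_mem (s := {c | ∃ F : Set Meager, #F = c ∧ (⋃ A ∈ F, A.1) = Set.univ})
    ⟨_, univ, rfl, eq_univ_of_forall fun x => ?_⟩
  exact mem_iUnion₂.2 ⟨⟨{x}, singleton_meager x⟩, mem_univ _, mem_singleton x⟩

theorem non_attained : ∃ Y : Set ℝ, #Y = nonM ∧ ¬ IsMeagre Y :=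
  csInf_mem (s := {c | ∃ Y : Set ℝ, #Y = c ∧ ¬ IsMeagre Y}) ⟨_, univ, rfl, univ_not_meager⟩

theorem cof_attained : ∃ F : Set Meager, #F = cofM ∧ ∀ A : Meager, ∃ B ∈ F, A ≤ B :=
  csInf_mem (s := {c | ∃ F : Set Meager, #F = c ∧ ∀ A : Meager, ∃ B ∈ F, A ≤ B})
    ⟨_, univ, rfl, fun A => ⟨A, mem_univ _, le_rfl⟩⟩

/-- The four invariants are values of `kap`. -/
theorem four_mem {P : Type} [PartialOrder P] [IsDirectedOrder P] {n : ℕ} {L : Fin n → Type}
    [∀ i, LinearOrder (L i)] (e : P ↪o (∀ i, L i)) (φ : Meager → P)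
    (hφ : ∀ p : P, ∃ B : Meager, ∀ A : Meager, φ A ≤ p → A ≤ B) :
    (ℵ₀ ≤ addM ∧ ∃ i, kap (fun p => e p) i = addM) ∧
    (ℵ₀ ≤ covM ∧ ∃ i, kap (fun p => e p) i = covM) ∧
    (ℵ₀ ≤ nonM ∧ ∃ i, kap (fun p => e p) i = nonM) ∧
    (ℵ₀ ≤ cofM ∧ ∃ i, kap (fun p => e p) i = cofM) := by
  choose ψ hψ using hφ
  have hT : ∀ (A : Meager) (p : P), φ A ≤ p → A ≤ ψ p := fun A p h => hψ p A h
  have he : ∀ p q : P, (∀ i, e p i ≤ e q i) → p ≤ q := fun p q h => e.le_iff_le.1 h
  have hmon : ∀ p q : P, p ≤ q → ∀ i, e p i ≤ e q i := fun p q h => e.le_iff_le.2 h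
  refine ⟨?_, ?_, ?_, ?_⟩
  · obtain ⟨F, hF1, hF2⟩ := add_attained
    rw [← hF1]
    refine bounding_mem (fun p => e p) (fun A B : Meager => A ≤ B) he hmon φ ψ hT
      (fun x y y' h h' => h.trans h') (fun x => ⟨x, le_rfl⟩) F ?_ ?_
    · intro B
      by_contra h
      push Not at h
      exact hF2 (B.2.mono (iUnion₂_subset fun A hA => h A hA))
    · intro F' hF'
      rw [hF1]
      apply csInf_le'
      refine ⟨F', rfl, fun h => ?_⟩
      obtain ⟨A, hA, hA'⟩ := hF' ⟨_, h⟩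
      exact hA' (subset_iUnion₂ (s := fun (A : Meager) (_ : A ∈ F') => A.1) A hA)
  · obtain ⟨F, hF1, hF2⟩ := cov_attained
    rw [← hF1]
    refine dominating_mem (fun p => e p) (fun (x : ℝ) (B : Meager) => x ∈ B.1) he hmon φ ψ hT
      (fun x y y' h h' => h' h) ?_ F ?_ ?_
    · intro B
      by_contra h
      push Not at h
      exact univ_not_meager (by rw [← eq_univ_of_forall h]; exact B.2)
    · intro x
      have : x ∈ ⋃ A ∈ F, A.1 := by rw [hF2]; exact mem_univ x
      obtain ⟨A, hA, hx⟩ := mem_iUnion₂.1 this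
      exact ⟨A, hA, hx⟩
    · intro D' hD'
      rw [hF1]
      apply csInf_le'
      refine ⟨D', rfl, eq_univ_of_forall fun x => ?_⟩
      obtain ⟨A, hA, hx⟩ := hD' x
      exact mem_iUnion₂.2 ⟨A, hA, hx⟩
  · obtain ⟨Y, hY1, hY2⟩ := non_attained
    rw [← hY1]
    refine bounding_mem (fun p => e p) (fun (x : ℝ) (B : Meager) => x ∈ B.1) he hmon φ ψ hT
      (fun x y y' h h' => h' h) (fun x => ⟨⟨{x}, singleton_meager x⟩, mem_singleton x⟩) Y ?_ ?_
    · intro B
      by_contra h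
      push Not at h
      exact hY2 (B.2.mono h)
    · intro F' hF'
      rw [hY1]
      apply csInf_le'
      refine ⟨F', rfl, fun h => ?_⟩
      obtain ⟨x, hx, hx'⟩ := hF' ⟨_, h⟩
      exact hx' hx
  · obtain ⟨F, hF1, hF2⟩ := cof_attained
    rw [← hF1]
    refine dominating_mem (fun p => e p) (fun A B : Meager => A ≤ B) he hmon φ ψ hT
      (fun x y y' h h' => h.trans h') ?_ F hF2 ?_
    · intro B
      by_contra h
      push Not at h
      refine univ_not_meager (B.2.mono fun x _ => ?_)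
      exact h ⟨{x}, singleton_meager x⟩ (mem_singleton x)
    · intro D' hD'
      rw [hF1]
      apply csInf_le'
      exact ⟨D', rfl, hD'⟩

/-- **Theorem.** Let `P` be a directed partial order of order dimension at most `n` (it embeds in a product
of `n` linear orders) such that the meager ideal is Tukey reducible to `P`: there is `φ : M → P` such that the
preimages of bounded sets are bounded.  Then the four invariants of the meager ideal take at most `n` values,
and the chain `add(M) < cov(M) < non(M) < cof(M)` implies `4 ≤ n`.  The same holds for every base of the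
meager ideal ordered by inclusion. -/
theorem result :
    (∀ (P : Type) [PartialOrder P] [IsDirectedOrder P] (n : ℕ) (L : Fin n → Type)
      [∀ i, LinearOrder (L i)] (_ : P ↪o (∀ i, L i)) (φ : Meager → P)
      (_ : ∀ p : P, ∃ B : Meager, ∀ A : Meager, φ A ≤ p → A.1 ⊆ B.1),
      (addM.IsRegular ∧ covM.IsRegular ∧ nonM.IsRegular ∧ cofM.IsRegular) ∧
        ({addM, covM, nonM, cofM} : Set Cardinal.{0}).ncard ≤ n ∧
        (addM < covM → covM < nonM → nonM < cofM → 4 ≤ n)) ∧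
    (∀ (B : Set (Set ℝ)) (_ : ∀ A ∈ B, IsMeagre A) (_ : ∀ A : Set ℝ, IsMeagre A → ∃ A' ∈ B, A ⊆ A')
      (n : ℕ) (L : Fin n → Type) [∀ i, LinearOrder (L i)] (e : B → ∀ i, L i)
      (_ : ∀ A A' : B, (A : Set ℝ) ⊆ A' ↔ ∀ i, e A i ≤ e A' i),
      (addM.IsRegular ∧ covM.IsRegular ∧ nonM.IsRegular ∧ cofM.IsRegular) ∧
        ({addM, covM, nonM, cofM} : Set Cardinal.{0}).ncard ≤ n ∧
        (addM < covM → covM < nonM → nonM < cofM → 4 ≤ n)) := by
  have main : ∀ (P : Type) [PartialOrder P] [IsDirectedOrder P] (n : ℕ) (L : Fin n → Type)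
      [∀ i, LinearOrder (L i)] (_ : P ↪o (∀ i, L i)) (φ : Meager → P)
      (_ : ∀ p : P, ∃ B : Meager, ∀ A : Meager, φ A ≤ p → A.1 ⊆ B.1),
      (addM.IsRegular ∧ covM.IsRegular ∧ nonM.IsRegular ∧ cofM.IsRegular) ∧
        ({addM, covM, nonM, cofM} : Set Cardinal.{0}).ncard ≤ n ∧
        (addM < covM → covM < nonM → nonM < cofM → 4 ≤ n) := by
    intro P _ _ n L _ e φ hφ
    obtain ⟨⟨k₀, i₀, h₀⟩, ⟨k₁, i₁, h₁⟩, ⟨k₂, i₂, h₂⟩, ⟨k₃, i₃, h₃⟩⟩ := four_mem e φ hφ
    refine ⟨⟨?_, ?_, ?_, ?_⟩, ?_, ?_⟩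
    · rw [← h₀] at k₀ ⊢
      exact kap_regular _ _ k₀
    · rw [← h₁] at k₁ ⊢
      exact kap_regular _ _ k₁
    · rw [← h₂] at k₂ ⊢
      exact kap_regular _ _ k₂
    · rw [← h₃] at k₃ ⊢
      exact kap_regular _ _ k₃
    · have hsub : ({addM, covM, nonM, cofM} : Set Cardinal.{0}) ⊆ range (kap (fun p => e p)) := by
        intro c hc
        simp only [mem_insert_iff, mem_singleton_iff] at hc
        rcases hc with rfl | rfl | rfl | rfl
        · exact ⟨i₀, h₀⟩
        · exact ⟨i₁, h₁⟩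
        · exact ⟨i₂, h₂⟩
        · exact ⟨i₃, h₃⟩
      refine (ncard_le_ncard hsub (finite_range _)).trans ?_
      rw [← image_univ]
      refine (ncard_image_le finite_univ).trans ?_
      rw [ncard_univ, Nat.card_eq_fintype_card, Fintype.card_fin]
    · intro a b c
      have hinj : Function.Injective ![i₀, i₁, i₂, i₃] := by
        have hcomp : Function.Injective (fun j => kap (fun p => e p) (![i₀, i₁, i₂, i₃] j)) := by
          have hmono : StrictMono (fun j => kap (fun p => e p) (![i₀, i₁, i₂, i₃] j)) := by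
            rw [Fin.strictMono_iff_lt_succ]
            intro j
            fin_cases j
            · simpa [h₀, h₁] using a
            · simpa [h₁, h₂] using b
            · simpa [h₂, h₃] using c
          exact hmono.injective
        intro j j' hj
        exact hcomp (congrArg (kap fun p => e p) hj)
      simpa using Fintype.card_le_of_injective _ hinj
  refine ⟨main, ?_⟩
  intro B hB1 hB2 n L _ e he
  have hdir : IsDirectedOrder B := by
    refine ⟨fun A A' => ?_⟩
    obtain ⟨C, hC, hC'⟩ := hB2 (A.1 ∪ A'.1) (union_meager (hB1 _ A.2) (hB1 _ A'.2))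
    exact ⟨⟨C, hC⟩, subset_union_left.trans hC', subset_union_right.trans hC'⟩
  choose g hg1 hg2 using hB2
  refine main B n L ⟨⟨e, ?_⟩, ?_⟩ (fun A => ⟨g A.1 A.2, hg1 _ _⟩) ?_
  · intro A A' h
    apply Subtype.ext
    apply Subset.antisymm
    · exact (he A A').2 fun i => by rw [h]
    · exact (he A' A).2 fun i => by rw [h]
  · intro A A'
    exact (he A A').symm
  · intro p
    exact ⟨⟨p.1, hB1 _ p.2⟩, fun A hA => (hg2 A.1 A.2).trans hA⟩

end Pool.Agent.Results.MP_709e7c_lc.BaseDimension
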